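import Pool.Agent.helper21.WB.LibB
import Pool.Agent.helper80.WB.H2

/-! [H4], [H5]: cocycles at scale `D` on a dense subset of a horoball complement are trivial. -/

set_option autoImplicit false
open Matrix MeasureTheory

namespace Pool.Agent.helper21.WB

namespace H4

/-- product of a cocycle along a sequence -/
def cp {H : Type} [Group H] (T : X → X → H) (s : ℕ → X) : ℕ → H
  | 0 => 1
  | k + 1 => cp T s k * T (s k) (s (k + 1))

theorem cp_add {H : Type} [Group H] (T : X → X → H) (s : ℕ → X) (k l : ℕ) :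
    cp T s (k + l) = cp T s k * cp T (fun i => s (k + i)) l := by
  induction l with
  | zero => simp [cp]
  | succ l ih =>
    have : k + (l + 1) = (k + l) + 1 := by omega
    rw [this, cp, ih, cp, mul_assoc]
    rfl

theorem cp_congr {H : Type} [Group H] (T : X → X → H) {s t : ℕ → X} (k : ℕ)
    (h : ∀ i ≤ k, s i = t i) : cp T s k = cp T t k := by
  induction k with
  | zero => rfl
  | succ k ih =>
    rw [cp, cp, ih (fun i hi => h i (by omega)), h k (by omega), h (k + 1) le_rfl]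

/-- a local cocycle at scale `b` for the pseudometric `ρ` -/
structure LC {H : Type} [Group H] (ρ : X → X → ℝ) (b : ℝ) (T : X → X → H) : Prop where
  pos : 0 < b
  self : ∀ x, ρ x x = 0
  symm : ∀ x y, ρ x y = ρ y x
  tri : ∀ x y z, ρ x z ≤ ρ x y + ρ y z
  cont : Continuous (fun p : X × X => ρ p.1 p.2)
  rel : ∀ x y z, ρ x y ≤ b → ρ y z ≤ b → ρ x z ≤ b → T x y * T y z = T x z

variable {H : Type} [Group H] {ρ : X → X → ℝ} {b : ℝ} {T : X → X → H}

theorem LC.one (h : LC ρ b T) (x : X) : T x x = 1 := by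
  have h0 : ρ x x ≤ b := by rw [h.self]; exact h.pos.le
  have := h.rel x x x h0 h0 h0
  simpa using this

/-- telescoping -/
theorem cp_small (h : LC ρ b T) (s : ℕ → X) (k : ℕ) (h1 : ∀ i ≤ k, ρ (s 0) (s i) ≤ b)
    (h2 : ∀ i < k, ρ (s i) (s (i + 1)) ≤ b) : cp T s k = T (s 0) (s k) := by
  induction k with
  | zero => rw [cp, h.one]
  | succ k ih =>
    rw [cp, ih (fun i hi => h1 i (by omega)) (fun i hi => h2 i (by omega))]
    exact h.rel _ _ _ (h1 k (by omega)) (h2 k (by omega)) (h1 (k + 1) le_rfl)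

/-- ladder -/
theorem cp_ladder (h : LC ρ b T) (s t : ℕ → X) (k : ℕ)
    (h1 : ∀ i < k, ρ (s i) (s (i + 1)) ≤ b) (h2 : ∀ i < k, ρ (t i) (t (i + 1)) ≤ b)
    (h3 : ∀ i ≤ k, ρ (s i) (t i) ≤ b) (h4 : ∀ i < k, ρ (s i) (t (i + 1)) ≤ b) :
    cp T s k * T (s k) (t k) = T (s 0) (t 0) * cp T t k := by
  induction k with
  | zero => simp [cp]
  | succ k ih =>
    have e := ih (fun i hi => h1 i (by omega)) (fun i hi => h2 i (by omega))
      (fun i hi => h3 i (by omega)) (fun i hi => h4 i (by omega))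
    rw [cp, cp, mul_assoc, h.rel _ _ _ (h1 k (by omega)) (h3 (k + 1) le_rfl) (h4 k (by omega)),
      ← h.rel _ _ _ (h3 k (by omega)) (h2 k (by omega)) (h4 k (by omega)), ← mul_assoc, e, mul_assoc]

/-- refinement of a chain -/
theorem cp_refine (h : LC ρ b T) (s s' : ℕ → X) (m k : ℕ) (hs : ∀ i ≤ k, s' (m * i) = s i)
    (h1 : ∀ i < k, ∀ j ≤ m, ρ (s' (m * i)) (s' (m * i + j)) ≤ b)
    (h2 : ∀ i < m * k, ρ (s' i) (s' (i + 1)) ≤ b) :
    cp T s' (m * k) = cp T s k := by
  induction k with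
  | zero => simp [cp]
  | succ k ih =>
    have e := ih (fun i hi => hs i (by omega)) (fun i hi => h1 i (by omega))
      (fun i hi => h2 i (by rw [Nat.mul_succ]; omega))
    rw [Nat.mul_succ, cp_add, e, cp]
    congr 1
    rw [cp_small h (fun i => s' (m * k + i)) m (fun i hi => h1 k (by omega) i hi)
      (fun i hi => by
        have := h2 (m * k + i) (by rw [Nat.mul_succ]; omega)
        simpa [add_assoc] using this)]
    simp only [add_zero]
    rw [hs k (by omega), ← Nat.mul_succ, hs (k + 1) le_rfl]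

/-- uniform smallness of `ρ` near the diagonal on balls -/
theorem unif (h : LC ρ b T) (R : ℝ) {ε : ℝ} (hε : 0 < ε) : ∃ δ : ℝ, 0 < δ ∧
    ∀ x y : X, ‖x‖ ≤ R → ‖y‖ ≤ R → dist x y ≤ δ → ρ x y ≤ ε := by
  have hK : IsCompact ((Metric.closedBall (0 : X) R) ×ˢ (Metric.closedBall (0 : X) R)) :=
    (isCompact_closedBall _ _).prod (isCompact_closedBall _ _)
  have hu := hK.uniformContinuousOn_of_continuous (f := fun p : X × X => ρ p.1 p.2)
    h.cont.continuousOn
  obtain ⟨δ, hδ, hd⟩ := (Metric.uniformContinuousOn_iff.1 hu) ε hε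
  refine ⟨δ / 2, by positivity, fun x y hx hy hxy => ?_⟩
  have hx' : x ∈ Metric.closedBall (0 : X) R := by simpa using hx
  have hy' : y ∈ Metric.closedBall (0 : X) R := by simpa using hy
  have := hd (x, x) ⟨hx', hx'⟩ (x, y) ⟨hx', hy'⟩ (by
    rw [Prod.dist_eq, dist_self, max_eq_right dist_nonneg]
    exact lt_of_le_of_lt hxy (by linarith))
  simp only [Real.dist_eq, h.self] at this
  have := (abs_lt.1 this).1
  linarith

/-- the ray from the origin to `x`, divided into `m` steps -/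
noncomputable def ray (m : ℕ) (x : X) (i : ℕ) : X := ((i : ℝ) / m) • x

theorem ray_zero (m : ℕ) (x : X) : ray m x 0 = 0 := by simp [ray]

theorem ray_self {m : ℕ} (hm : 0 < m) (x : X) : ray m x m = x := by
  have : ((m : ℝ) / m) = 1 := div_self (by exact_mod_cast hm.ne')
  rw [ray, this, one_smul]

theorem norm_ray {m : ℕ} (hm : 0 < m) (x : X) {i : ℕ} (hi : i ≤ m) : ‖ray m x i‖ ≤ ‖x‖ := by
  have hm' : (0 : ℝ) < m := by exact_mod_cast hm
  rw [ray, norm_smul, Real.norm_eq_abs, abs_of_nonneg (by positivity)]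
  have : (i : ℝ) / m ≤ 1 := (div_le_one hm').2 (by exact_mod_cast hi)
  calc (i : ℝ) / m * ‖x‖ ≤ 1 * ‖x‖ := by gcongr
    _ = ‖x‖ := one_mul _

theorem dist_ray (m : ℕ) (x y : X) {i : ℕ} (hi : i ≤ m) : dist (ray m x i) (ray m y i) ≤ dist x y := by
  rcases Nat.eq_zero_or_pos m with hm | hm
  · subst hm; simp [ray]
  have hm' : (0 : ℝ) < m := by exact_mod_cast hm
  rw [dist_eq_norm, dist_eq_norm, ray, ray, ← smul_sub, norm_smul, Real.norm_eq_abs,
    abs_of_nonneg (by positivity)]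
  have : (i : ℝ) / m ≤ 1 := (div_le_one hm').2 (by exact_mod_cast hi)
  calc (i : ℝ) / m * ‖x - y‖ ≤ 1 * ‖x - y‖ := by gcongr
    _ = ‖x - y‖ := one_mul _

theorem dist_ray_add (m : ℕ) (x : X) (i j : ℕ) :
    dist (ray m x i) (ray m x (i + j)) = (j : ℝ) / m * ‖x‖ := by
  rw [dist_eq_norm, ray, ray, ← sub_smul, norm_smul, Real.norm_eq_abs]
  congr 1
  have : (i : ℝ) / m - ((i + j : ℕ) : ℝ) / m = - ((j : ℝ) / m) := by push_cast; ring
  rw [this, abs_neg, abs_of_nonneg (by positivity)]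

/-- the trivialisation at resolution `m` -/
noncomputable def sg (T : X → X → H) (m : ℕ) (x : X) : H := cp T (ray m x) m

/-- independence of the resolution -/
theorem sg_indep (h : LC ρ b T) {N δ : ℝ}
    (hδ : ∀ x y : X, ‖x‖ ≤ N → ‖y‖ ≤ N → dist x y ≤ δ → ρ x y ≤ b) {m m' : ℕ}
    (hm : 0 < m) (hm' : 0 < m') (h1 : N / m ≤ δ) (x : X) (hx : ‖x‖ ≤ N) :
    sg T (m' * m) x = sg T m x := by
  have hmr : (0 : ℝ) < m := by exact_mod_cast hm
  have hmr' : (0 : ℝ) < m' := by exact_mod_cast hm'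
  have hmm : 0 < m' * m := Nat.mul_pos hm' hm
  unfold sg
  apply cp_refine h
  · intro i hi
    unfold ray
    congr 1
    push_cast
    field_simp
  · intro i hi j hj
    have hle : m' * i + j ≤ m' * m := by
      calc m' * i + j ≤ m' * i + m' := by omega
        _ = m' * (i + 1) := by ring
        _ ≤ m' * m := Nat.mul_le_mul_left _ (by omega)
    refine hδ _ _ ((norm_ray hmm x (by omega)).trans hx) ((norm_ray hmm x hle).trans hx) ?_
    rw [dist_ray_add]
    refine le_trans ?_ h1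
    push_cast
    have hj' : (j : ℝ) ≤ m' := by exact_mod_cast hj
    rw [div_mul_eq_mul_div, div_le_div_iff₀ (by positivity) hmr]
    have h0 : 0 ≤ N := (norm_nonneg x).trans hx
    calc (j : ℝ) * ‖x‖ * m ≤ m' * N * m := by gcongr
      _ = N * (m' * m) := by ring
  · intro i hi
    refine hδ _ _ ((norm_ray hmm x (by omega)).trans hx) ((norm_ray hmm x (by omega)).trans hx) ?_
    rw [dist_ray_add]
    refine le_trans ?_ h1
    push_cast
    rw [div_mul_eq_mul_div, div_le_div_iff₀ (by positivity) hmr, one_mul]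
    have h0 : 0 ≤ N := (norm_nonneg x).trans hx
    have : (1 : ℝ) ≤ m' := by exact_mod_cast hm'
    calc ‖x‖ * m ≤ N * m := by gcongr
      _ ≤ N * (m' * m) := by nlinarith [mul_nonneg h0 hmr.le]

/-- [A] A local cocycle on `X` is locally a coboundary, uniformly on balls. -/
theorem exists_sigma (h : LC ρ b T) : ∃ σ : X → H, ∀ R : ℝ, ∃ δ : ℝ, 0 < δ ∧ ∀ x y : X,
    ‖x‖ ≤ R → ‖y‖ ≤ R → dist x y ≤ δ → σ y = σ x * T x y := by
  have hb4 : 0 < b / 4 := by have := h.pos; positivity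
  choose δ hδ0 hδ using fun N : ℕ => unif h (N : ℝ) hb4
  have hM : ∀ N : ℕ, ∃ M : ℕ, 0 < M ∧ (N : ℝ) / M ≤ δ N := by
    intro N
    obtain ⟨M, hM⟩ := exists_nat_gt ((N : ℝ) / δ N)
    have h0 : (0 : ℝ) ≤ N / δ N := by have := hδ0 N; positivity
    have hMr : (0 : ℝ) < M := lt_of_le_of_lt h0 hM
    refine ⟨M, by exact_mod_cast hMr, ?_⟩
    rw [div_le_iff₀ hMr]
    rw [div_lt_iff₀ (hδ0 N)] at hM
    linarith
  choose M hM0 hM using hM
  -- independence
  have indep : ∀ (N : ℕ) (m m' : ℕ), M N ≤ m → M N ≤ m' → ∀ x : X, ‖x‖ ≤ N →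
      sg T m x = sg T m' x := by
    intro N m m' hm hm' x hx
    have hN := hM0 N
    have hNr : (0 : ℝ) < M N := by exact_mod_cast hN
    have key : ∀ k : ℕ, M N ≤ k → (N : ℝ) / k ≤ δ N := by
      intro k hk
      refine le_trans ?_ (hM N)
      have : (M N : ℝ) ≤ k := by exact_mod_cast hk
      gcongr
    have hδ' : ∀ x y : X, ‖x‖ ≤ N → ‖y‖ ≤ N → dist x y ≤ δ N → ρ x y ≤ b :=
      fun x y h1 h2 h3 => (hδ N x y h1 h2 h3).trans (by have := h.pos; linarith)
    have e1 := sg_indep h hδ' (m := m) (m' := m') (by omega) (by omega) (key m hm) x hx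
    have e2 := sg_indep h hδ' (m := m') (m' := m) (by omega) (by omega) (key m' hm') x hx
    rw [← e1, ← e2, Nat.mul_comm]
  let Nx : X → ℕ := fun x => ⌈‖x‖⌉₊
  have hNx : ∀ x : X, ‖x‖ ≤ Nx x := fun x => Nat.le_ceil _
  refine ⟨fun x => sg T (M (Nx x)) x, fun R => ?_⟩
  set N : ℕ := ⌈R⌉₊
  refine ⟨δ N, hδ0 N, fun x y hx hy hxy => ?_⟩
  have hx' : ‖x‖ ≤ N := hx.trans (Nat.le_ceil _)
  have hy' : ‖y‖ ≤ N := hy.trans (Nat.le_ceil _)
  set m := M N + M (Nx x) + M (Nx y)
  have ex : sg T (M (Nx x)) x = sg T m x := indep (Nx x) _ _ le_rfl (by omega) x (hNx x)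
  have ey : sg T (M (Nx y)) y = sg T m y := indep (Nx y) _ _ le_rfl (by omega) y (hNx y)
  show sg T (M (Nx y)) y = sg T (M (Nx x)) x * T x y
  rw [ex, ey]
  have hm0 : 0 < m := by have := hM0 N; omega
  have hNm : (N : ℝ) / m ≤ δ N := by
    refine le_trans ?_ (hM N)
    have h1 : (0 : ℝ) < M N := by exact_mod_cast hM0 N
    have : (M N : ℝ) ≤ m := by exact_mod_cast (by omega : M N ≤ m)
    gcongr
  have hst : ∀ z : X, ‖z‖ ≤ N → ∀ i < m, ρ (ray m z i) (ray m z (i + 1)) ≤ b / 4 := by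
    intro z hz i hi
    refine hδ N _ _ ((norm_ray hm0 z (by omega)).trans hz) ((norm_ray hm0 z (by omega)).trans hz) ?_
    rw [dist_ray_add]
    refine le_trans ?_ hNm
    have h1 : (0 : ℝ) < m := by exact_mod_cast hm0
    rw [Nat.cast_one, div_mul_eq_mul_div, one_mul]
    gcongr
  have hv : ∀ i ≤ m, ρ (ray m x i) (ray m y i) ≤ b / 4 := by
    intro i hi
    exact hδ N _ _ ((norm_ray hm0 x hi).trans hx') ((norm_ray hm0 y hi).trans hy')
      ((dist_ray m x y hi).trans hxy)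
  have hb := h.pos
  have lad := cp_ladder h (ray m x) (ray m y) m
    (fun i hi => (hst x hx' i hi).trans (by linarith))
    (fun i hi => (hst y hy' i hi).trans (by linarith))
    (fun i hi => (hv i hi).trans (by linarith))
    (fun i hi => (h.tri _ (ray m y i) _).trans (by
      have := hv i (by omega); have := hst y hy' i hi; linarith))
  rw [ray_self hm0, ray_self hm0, ray_zero, ray_zero, h.one, one_mul] at lad
  exact lad.symm

/-- subdivision of a path -/
theorem exists_subdiv (c : ℝ → X) (hc : Continuous c) {δ : ℝ} (hδ : 0 < δ) :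
    ∃ m : ℕ, 0 < m ∧ ∀ i < m, dist (c ((i : ℝ) / m)) (c (((i + 1 : ℕ) : ℝ) / m)) ≤ δ := by
  have hu := (isCompact_Icc (a := (0 : ℝ)) (b := 1)).uniformContinuousOn_of_continuous
    hc.continuousOn
  obtain ⟨ε, hε, hd⟩ := (Metric.uniformContinuousOn_iff.1 hu) δ hδ
  obtain ⟨m, hm⟩ := exists_nat_gt (1 / ε)
  have hm0 : (0 : ℝ) < m := lt_of_le_of_lt (by positivity) hm
  refine ⟨m, by exact_mod_cast hm0, fun i hi => ?_⟩
  have hi' : ((i + 1 : ℕ) : ℝ) ≤ m := by exact_mod_cast hi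
  refine (hd _ ⟨by positivity, (div_le_one hm0).2 (by push_cast at hi'; linarith)⟩ _
    ⟨by positivity, (div_le_one hm0).2 hi'⟩ ?_).le
  rw [Real.dist_eq]
  have : (i : ℝ) / m - ((i + 1 : ℕ) : ℝ) / m = - (1 / m) := by push_cast; ring
  rw [this, abs_neg, abs_of_nonneg (by positivity)]
  rw [div_lt_iff₀ hm0]
  rw [div_lt_iff₀ hε] at hm
  linarith

theorem bounded_path (c : ℝ → X) (hc : Continuous c) :
    ∃ R : ℝ, ∀ t ∈ Set.Icc (0:ℝ) 1, ‖c t‖ ≤ R := by
  obtain ⟨R, hR⟩ := (isCompact_Icc (a := (0 : ℝ)) (b := 1)).exists_bound_of_continuousOn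
    hc.continuousOn
  exact ⟨R, hR⟩

end H4

open H4

section main

variable {Ξ : Set (I → ℝ)} {D a : ℝ} {P : Type} {π : P → X}

/-- common preparation: retraction and nearest points -/
theorem H4.setup (hΞ : Horo Ξ)
    (hdense : ∀ x ∈ Out Ξ, ∃ p, hd x (π p) ≤ a) :
    ∃ (r : X → X) (n : X → P), Continuous r ∧ (∀ y ∈ Out Ξ, r y = y) ∧ (∀ y, r y ∈ Out Ξ) ∧
      (∀ x, hd (r x) (π (n x)) ≤ a) ∧
      (∀ x y z : X, x ∈ Out Ξ → y ∈ Out Ξ → hd x z + hd z y = hd x y →
        hd x (r z) ≤ hd x y) ∧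
      (∀ x y, hd (r x) (r y) ≤ D - 2 * a → hd (π (n x)) (π (n y)) ≤ D) := by
  obtain ⟨r, hr0, hr1, hr2, hr3⟩ := exists_ret hΞ
  choose n hn using fun x : X => hdense (r x) (hr2 x)
  refine ⟨r, n, hr0, hr1, hr2, hn, ?_, ?_⟩
  · intro x y z hx hy hz
    refine (ret_segment hΞ r hr1 hr2 (fun ξ hξ y hy => ?_) x y z hx hy hz).1
    obtain ⟨h1, -, h3⟩ := hr3 ξ hξ y hy
    exact ⟨h1, h3⟩
  · intro x y hxy
    have h1 := hd_triangle (π (n x)) (r x) (π (n y))
    have h2 := hd_triangle (r x) (r y) (π (n y))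
    have h3 := hn x
    have h4 := hn y
    rw [hd_comm (π (n x)) (r x)] at h1
    linarith

/-- [H4'] Every group valued cocycle at scale `D` on an `a`-dense set, `2a < D`, is a coboundary at
scale `D - a`. -/
theorem coboundary' (hΞ : Horo Ξ) (ha : 0 ≤ a) (haD : 2 * a < D)
    (hout : ∀ p, π p ∈ Out Ξ) (hdense : ∀ x ∈ Out Ξ, ∃ p, hd x (π p) ≤ a)
    {H : Type} [Group H] (c : P → P → H)
    (hc : ∀ p q r, hd (π p) (π q) ≤ D → hd (π q) (π r) ≤ D → hd (π p) (π r) ≤ D →
      c p q * c q r = c p r) :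
    ∃ u : P → H, ∀ p q, hd (π p) (π q) ≤ D - a → c p q = (u p)⁻¹ * u q := by
  obtain ⟨r, n, hr0, hr1, hr2, hn, hseg, hnD⟩ := H4.setup (D := D) hΞ hdense
  set T : X → X → H := fun x y => c (n x) (n y) with hT
  have hLC : LC (fun x y => hd (r x) (r y)) (D - 2 * a) T := by
    refine ⟨by linarith, fun x => hd_self _, fun x y => hd_comm _ _,
      fun x y z => hd_triangle _ _ _, ?_, fun x y z h1 h2 h3 => ?_⟩
    · exact continuous_hd.comp ((hr0.comp continuous_fst).prodMk (hr0.comp continuous_snd))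
    · exact hc _ _ _ (hnD x y h1) (hnD y z h2) (hnD x z h3)
  obtain ⟨σ, hσ⟩ := exists_sigma hLC
  have hnp : ∀ p, hd (π p) (π (n (π p))) ≤ a := by
    intro p
    have := hn (π p)
    rwa [hr1 _ (hout p)] at this
  -- transport of `c p ·` along the retracted segment
  have key : ∀ p q, hd (π p) (π q) ≤ D - a →
      c p (n (π q)) = c p (n (π p)) * ((σ (π p))⁻¹ * σ (π q)) := by
    intro p q hpq
    obtain ⟨g, hg0, hg1, hg2, hg3⟩ := exists_geod (π p) (π q)
    obtain ⟨R, hR⟩ := bounded_path g hg0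
    obtain ⟨δ, hδ, hδσ⟩ := hσ R
    obtain ⟨δ', hδ', hδu⟩ := unif hLC R hLC.pos
    obtain ⟨m, hm0, hm⟩ := exists_subdiv g hg0 (lt_min hδ hδ')
    have hmr : (0 : ℝ) < m := by exact_mod_cast hm0
    have hI : ∀ i ≤ m, ((i : ℝ) / m) ∈ Set.Icc (0:ℝ) 1 := fun i hi =>
      ⟨by positivity, (div_le_one hmr).2 (by exact_mod_cast hi)⟩
    set s : ℕ → X := fun i => g ((i : ℝ) / m) with hs
    have s0 : s 0 = π p := by simp [hs, hg1]
    have sm : s m = π q := by simp only [hs]; rw [div_self hmr.ne', hg2]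
    have hps : ∀ i ≤ m, hd (π p) (π (n (s i))) ≤ D := by
      intro i hi
      have h1 : hd (π p) (r (s i)) ≤ D - a := by
        refine (hseg (π p) (π q) (s i) (hout p) (hout q) ?_).trans hpq
        obtain ⟨h1, h2⟩ := hg3 _ (hI i hi)
        simp only [hs]; rw [h1, h2]; ring
      have h2 := hd_triangle (π p) (r (s i)) (π (n (s i)))
      have h3 := hn (s i)
      linarith
    have e : ∀ k ≤ m, c p (n (s k)) = c p (n (s 0)) * ((σ (s 0))⁻¹ * σ (s k)) := by
      intro k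
      induction k with
      | zero => intro _; simp
      | succ k ih =>
        intro hk
        have h1 := hδσ _ _ (hR _ (hI k (by omega))) (hR _ (hI (k + 1) hk))
          ((hm k (by omega)).trans (min_le_left _ _))
        have h2 := hδu _ _ (hR _ (hI k (by omega))) (hR _ (hI (k + 1) hk))
          ((hm k (by omega)).trans (min_le_right _ _))
        have h3 : c p (n (s k)) * T (s k) (s (k + 1)) = c p (n (s (k + 1))) :=
          hc _ _ _ (hps k (by omega)) (hnD _ _ h2) (hps (k + 1) hk)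
        rw [← h3, ih (by omega)]
        have h4 : σ (s (k + 1)) = σ (s k) * T (s k) (s (k + 1)) := h1
        rw [h4]; group
    have := e m le_rfl
    rw [s0, sm] at this
    exact this
  have hone : ∀ p, c p p = 1 := by
    intro p
    have h0 : hd (π p) (π p) ≤ D := by rw [hd_self]; linarith
    have := hc p p p h0 h0 h0
    simpa using this
  have hinv : ∀ p q, hd (π p) (π q) ≤ D → c p q = (c q p)⁻¹ := by
    intro p q h
    have h' : hd (π q) (π p) ≤ D := by rw [hd_comm]; exact h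
    have h0 : hd (π p) (π p) ≤ D := by rw [hd_self]; linarith
    have := hc p q p h h' h0
    rw [hone] at this
    exact eq_inv_of_mul_eq_one_left this
  refine ⟨fun p => σ (π p) * c (n (π p)) p, fun p q hpq => ?_⟩
  show c p q = (σ (π p) * c (n (π p)) p)⁻¹ * (σ (π q) * c (n (π q)) q)
  have d1 : hd (π p) (π (n (π q))) ≤ D := by
    have := hd_triangle (π p) (π q) (π (n (π q)))
    have := hnp q
    linarith
  have d2 : hd (π (n (π q))) (π q) ≤ D := by
    rw [hd_comm]; have := hnp q; linarith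
  have d3 : hd (π p) (π (n (π p))) ≤ D := by have := hnp p; linarith
  rw [_root_.mul_inv_rev, ← hinv p _ d3, ← hc p (n (π q)) q d1 d2 (by linarith), key p q hpq]
  group

/-- [H5'] connectedness at scale `D` -/
theorem chain_const' (hΞ : Horo Ξ) (ha : 0 ≤ a) (haD : 2 * a < D)
    (hout : ∀ p, π p ∈ Out Ξ) (hdense : ∀ x ∈ Out Ξ, ∃ p, hd x (π p) ≤ a)
    {S : Type} (f : P → S) (hf : ∀ p q, hd (π p) (π q) ≤ D → f p = f q) (p q : P) : f p = f q := by
  obtain ⟨r, n, hr0, hr1, hr2, hn, -, hnD⟩ := H4.setup (D := D) hΞ hdense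
  have hLC : LC (H := Unit) (fun x y => hd (r x) (r y)) (D - 2 * a) (fun _ _ => ()) := by
    refine ⟨by linarith, fun x => hd_self _, fun x y => hd_comm _ _,
      fun x y z => hd_triangle _ _ _, ?_, fun x y z h1 h2 h3 => rfl⟩
    exact continuous_hd.comp ((hr0.comp continuous_fst).prodMk (hr0.comp continuous_snd))
  obtain ⟨g, hg0, hg1, hg2, -⟩ := exists_geod (π p) (π q)
  obtain ⟨R, hR⟩ := bounded_path g hg0
  obtain ⟨δ', hδ', hδu⟩ := unif hLC R hLC.pos
  obtain ⟨m, hm0, hm⟩ := exists_subdiv g hg0 hδ'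
  have hmr : (0 : ℝ) < m := by exact_mod_cast hm0
  have hI : ∀ i ≤ m, ((i : ℝ) / m) ∈ Set.Icc (0:ℝ) 1 := fun i hi =>
    ⟨by positivity, (div_le_one hmr).2 (by exact_mod_cast hi)⟩
  set s : ℕ → X := fun i => g ((i : ℝ) / m) with hs
  have s0 : s 0 = π p := by simp [hs, hg1]
  have sm : s m = π q := by simp only [hs]; rw [div_self hmr.ne', hg2]
  have e : ∀ k ≤ m, f (n (s k)) = f (n (s 0)) := by
    intro k
    induction k with
    | zero => intro _; rfl
    | succ k ih =>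
      intro hk
      rw [← ih (by omega)]
      refine (hf _ _ (hnD _ _ ?_)).symm
      exact hδu _ _ (hR _ (hI k (by omega))) (hR _ (hI (k + 1) hk)) (hm k (by omega))
  have e' := e m le_rfl
  rw [s0, sm] at e'
  have hnp : ∀ p, f p = f (n (π p)) := by
    intro p
    apply hf
    have := hn (π p)
    rw [hr1 _ (hout p)] at this
    linarith
  rw [hnp p, hnp q, e']

end main

/-- [H4] Every group valued cocycle at scale `D` on a `D/4`-dense set is a coboundary at scale `3D/4`. -/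
theorem coboundary {Ξ : Set (I → ℝ)} (hΞ : Horo Ξ) {D : ℝ} (hD : 0 < D) {P : Type} (π : P → X)
    (hout : ∀ p, π p ∈ Out Ξ) (hdense : ∀ x ∈ Out Ξ, ∃ p, hd x (π p) ≤ D / 4)
    {H : Type} [Group H] (c : P → P → H)
    (hc : ∀ p q r, hd (π p) (π q) ≤ D → hd (π q) (π r) ≤ D → hd (π p) (π r) ≤ D →
      c p q * c q r = c p r) :
    ∃ u : P → H, ∀ p q, hd (π p) (π q) ≤ 3 / 4 * D → c p q = (u p)⁻¹ * u q := by
  obtain ⟨u, hu⟩ := coboundary' (a := D / 4) hΞ (by positivity) (by linarith) hout hdense c hc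
  exact ⟨u, fun p q h => hu p q (by linarith)⟩

/-- [H5] connectedness at scale `D` -/
theorem chain_const {Ξ : Set (I → ℝ)} (hΞ : Horo Ξ) {D : ℝ} (hD : 0 < D) {P : Type} (π : P → X)
    (hout : ∀ p, π p ∈ Out Ξ) (hdense : ∀ x ∈ Out Ξ, ∃ p, hd x (π p) ≤ D / 4)
    {S : Type} (f : P → S) (hf : ∀ p q, hd (π p) (π q) ≤ D → f p = f q) (p q : P) : f p = f q :=
  chain_const' (a := D / 4) hΞ (by positivity) (by linarith) hout hdense f hf p q

end Pool.Agent.helper21.WB
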