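import Pool.Agent.helper31.WB.NDefs
import Pool.Agent.helper21.WB.LibB

/-! [N6] the net of a configuration (deterministic construction). helper38 -/

set_option autoImplicit false
open Matrix MeasureTheory

namespace Pool.Agent.helper21.WB.NN

namespace N6

theorem act_mem_Th' {Γ : Subgroup GLI} (hΓ : Disc Γ) {γ : GLI} (hγ : γ ∈ Γ) {r : ℝ} {y : X}
    (h : act γ y ∈ Th Γ r) : y ∈ Th Γ r := by
  intro δ hδ h1
  have e := h (γ * δ * γ⁻¹) (Γ.mul_mem (Γ.mul_mem hγ hδ) (Γ.inv_mem hγ)) (by
    intro e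
    apply h1
    have : γ * δ = γ := by
      calc γ * δ = (γ * δ * γ⁻¹) * γ := by group
        _ = γ := by rw [e, one_mul]
    exact mul_eq_left.1 this)
  have hγG := hΓ.inG γ hγ
  have hδG := hΓ.inG δ hδ
  rw [← act_mul hγG, inv_mul_cancel_right, act_mul hδG, hd_act hγG] at e
  exact e

theorem Th_of_near' {Γ : Subgroup GLI} (hΓ : Disc Γ) {r d : ℝ} {x y : X} (hx : x ∈ Th Γ (r + 2 * d))
    (hxy : hd x y ≤ d) : y ∈ Th Γ r := by
  intro γ hγ h1
  have h := hx γ hγ h1
  have t1 := hd_triangle x y (act γ x)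
  have t2 := hd_triangle y (act γ y) (act γ x)
  rw [hd_act (hΓ.inG γ hγ), hd_comm y x] at t2
  linarith

theorem not_deep_of_Th {Γ : Subgroup GLI} (hΓ : Disc Γ) {r η : ℝ} (hr : 40 ≤ r) (hη : η ≤ 1) {y : X}
    (hy : y ∈ Th Γ r) : y ∉ Deep Γ η := by
  rintro ⟨γ, hγ, hli⟩
  have h1 : γ 0 ≠ 1 := by
    intro h
    have := hli.ne_zero 0
    apply this
    simp [Yg, h]
  have h2 := hy (γ 0) (hγ 0).1 h1
  have h3 := ch_le_of_sm (hΓ.inG _ (hγ 0).1) y
  have h4 := (hγ 0).2
  have h5 : ch y (act (γ 0) y) ≤ 2 := by linarith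
  rw [← cosh_hd] at h5
  have h6 : Real.cosh 40 ≤ Real.cosh (hd y (act (γ 0) y)) := by
    rw [Real.cosh_le_cosh, abs_of_pos (by norm_num), abs_of_nonneg (hd_nonneg _ _)]
    linarith
  have h7 : (2 : ℝ) < Real.cosh 40 := by
    rw [Real.cosh_eq]
    have := Real.add_one_le_exp (40 : ℝ)
    have := Real.exp_pos (-40 : ℝ)
    linarith
  linarith

end N6

open N6

open Classical in
theorem det_net {Γ : Subgroup GLI} (hΓ : Disc Γ) {η D s m : ℝ} (hη0 : 0 < η) (hη : η ≤ 1)
    (hD : 40 ≤ D) (hs : s ≤ 1) (hm : 0 ≤ m) (Z : Finset X) (hZ1 : ∀ z ∈ Z, z ∉ Deep Γ η)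
    (hZ2 : ∀ x, x ∉ Deep Γ η → ∃ z ∈ Z, ∃ γ ∈ Γ, hd x (act γ z) ≤ 1)
    (hZ3 : ∀ z, ∀ Z' ⊆ Z, (∀ z' ∈ Z', ∃ γ ∈ Γ, hd z (act γ z') ≤ D) → (Z'.card : ℝ) ≤ m)
    (hsep : ∀ y, y ∉ Deep Γ η → ∀ γ ∈ Γ, γ ≠ 1 → s ≤ sm y γ) {N : ℕ} (x : Fin N → X) :
    ∃ (n : ℕ) (T : Net Γ η D s (10 * D) n), n ≤ N + Z.card ∧ T.good.card ≤ N ∧
      T.E1.encard ≤ (Q Γ D x).encard ∧ (T.B.ncard : ENNReal) ≤ W Γ D Z m x := by
  set P1 : Finset (Fin N) := Finset.univ.filter (fun a => x a ∈ Th Γ (10 * D)) with hP1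
  set P2 : Finset X := Z.filter
    (fun z => z ∉ Th Γ (12 * D) ∨ ∀ a, x a ∉ Sat Γ (bl0 z (D / 40))) with hP2
  set k := P1.card with hk
  set l := P2.card with hl
  have hkN : k ≤ N := by
    have := P1.card_le_univ
    simpa using this
  have hlZ : l ≤ Z.card := Finset.card_filter_le _ _
  let f1 : Fin k → Fin N := fun i => P1.orderEmbOfFin rfl i
  have f1mem : ∀ i, x (f1 i) ∈ Th Γ (10 * D) := by
    intro i
    have : P1.orderEmbOfFin rfl i ∈ P1 := Finset.orderEmbOfFin_mem P1 rfl i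
    exact (Finset.mem_filter.1 this).2
  have f1mono : StrictMono f1 := (P1.orderEmbOfFin rfl).strictMono
  have f1surj : ∀ a, x a ∈ Th Γ (10 * D) → ∃ i, f1 i = a := by
    intro a ha
    have h1 : a ∈ Set.range (P1.orderEmbOfFin rfl) := by
      rw [Finset.range_orderEmbOfFin]
      exact Finset.mem_coe.2 (Finset.mem_filter.2 ⟨Finset.mem_univ _, ha⟩)
    exact h1
  let e2 : P2 ≃ Fin l := P2.equivFin
  let f2 : Fin l → X := fun j => (e2.symm j).1
  have f2mem : ∀ j, f2 j ∈ P2 := fun j => (e2.symm j).2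
  have f2inj : Function.Injective f2 := Subtype.val_injective.comp e2.symm.injective
  have f2surj : ∀ z ∈ P2, ∃ j, f2 j = z := by
    intro z hz
    exact ⟨e2 ⟨z, hz⟩, by simp [f2]⟩
  let pt : Fin (k + l) → X := Fin.append (fun i => x (f1 i)) f2
  have pt1 : ∀ i : Fin k, pt (Fin.castAdd l i) = x (f1 i) := fun i => Fin.append_left _ _ i
  have pt2 : ∀ j : Fin l, pt (Fin.natAdd k j) = f2 j := fun j => Fin.append_right _ _ j
  have hpt : ∀ i, act (bst (pt i)) 0 = pt i := fun i => act_bst _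
  have hout : ∀ i, pt i ∉ Deep Γ η := by
    intro i
    refine Fin.addCases (fun i => ?_) (fun j => ?_) i
    · rw [pt1]
      exact not_deep_of_Th hΓ (by linarith) hη (f1mem i)
    · rw [pt2]
      exact hZ1 _ (Finset.mem_filter.1 (f2mem j)).1
  have hgd : ∀ i j, ∀ γ ∈ Γ, gd (bst (pt i)) (γ * bst (pt j)) = hd (pt i) (act γ (pt j)) := by
    intro i j γ hγ
    rw [gd_eq (bst_inG _) ((hΓ.inG γ hγ).mul (bst_inG _)), act_mul (bst_inG _), hpt, hpt]
  have hgd2 : ∀ i j, ∀ γ ∈ Γ, ∀ δ ∈ Γ,
      gd (δ * bst (pt i)) (γ * bst (pt j)) = hd (act δ (pt i)) (act γ (pt j)) := by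
    intro i j γ hγ δ hδ
    rw [gd_eq ((hΓ.inG δ hδ).mul (bst_inG _)) ((hΓ.inG γ hγ).mul (bst_inG _)), act_mul (bst_inG _),
      act_mul (bst_inG _), hpt, hpt]
  let good : Finset (Fin (k + l)) := Finset.univ.map (Fin.castAddEmb l)
  have hgood1 : ∀ i : Fin k, Fin.castAdd l i ∈ good := by
    intro i
    exact Finset.mem_map.2 ⟨i, Finset.mem_univ _, rfl⟩
  have hgood2 : ∀ i ∈ good, ∃ i' : Fin k, i = Fin.castAdd l i' := by
    intro i hi
    obtain ⟨i', -, h⟩ := Finset.mem_map.1 hi
    exact ⟨i', h.symm⟩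
  have hbad : ∀ i, i ∉ good → ∃ j : Fin l, i = Fin.natAdd k j := by
    intro i
    refine Fin.addCases (fun i => ?_) (fun j => ?_) i
    · intro h; exact absurd (hgood1 i) h
    · intro _; exact ⟨j, rfl⟩
  let T : Net Γ η D s (10 * D) (k + l) :=
    { p := fun i => bst (pt i)
      good := good
      mem := fun i => bst_inG _
      out := fun i => by rw [hpt]; exact hout i
      dense := by
        intro y hy
        obtain ⟨z, hz, γ, hγ, hyz⟩ := hZ2 y hy
        by_cases hzP : z ∈ P2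
        · obtain ⟨j, hj⟩ := f2surj z hzP
          refine ⟨Fin.natAdd k j, γ, hγ, ?_⟩
          rw [act_mul (bst_inG _), hpt, pt2, hj]
          linarith
        · have h1 : z ∈ Th Γ (12 * D) ∧ ∃ a, x a ∈ Sat Γ (bl0 z (D / 40)) := by
            by_contra hcon
            apply hzP
            refine Finset.mem_filter.2 ⟨hz, ?_⟩
            by_cases h2 : z ∈ Th Γ (12 * D)
            · right
              intro a ha
              exact hcon ⟨h2, a, ha⟩
            · left; exact h2
          obtain ⟨h2, a, δ, hδ, ha⟩ := h1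
          have ha' : hd z (act δ (x a)) ≤ D / 40 := ha
          have h3 : x a ∈ Th Γ (10 * D) := by
            apply act_mem_Th' hΓ hδ
            apply Th_of_near' hΓ (r := 10 * D) (d := D) (x := z)
            · have : 10 * D + 2 * D = 12 * D := by ring
              rw [this]; exact h2
            · linarith
          obtain ⟨i, hi⟩ := f1surj a h3
          refine ⟨Fin.castAdd l i, γ * δ, Γ.mul_mem hγ hδ, ?_⟩
          rw [act_mul (bst_inG _), hpt, pt1, hi, act_mul (hΓ.inG δ hδ)]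
          have t := hd_triangle y (act γ z) (act γ (act δ (x a)))
          rw [hd_act (hΓ.inG γ hγ)] at t
          linarith
      sep := by
        intro i γ hγ h1
        rw [hpt]
        exact hsep _ (hout i) γ hγ h1
      thick := by
        intro i hi γ hγ h1
        rw [hgd i i γ hγ]
        obtain ⟨i', rfl⟩ := hgood2 i hi
        rw [pt1]
        exact f1mem i' γ hγ h1 }
  have Tp : ∀ i, T.p i = bst (pt i) := fun i => rfl
  have Tgood : T.good = good := rfl
  refine ⟨k + l, T, by omega, ?_, ?_, ?_⟩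
  · rw [Tgood, Finset.card_map, Finset.card_univ, Fintype.card_fin]; exact hkN
  · -- edges
    set E' : Set (Fin k × Fin k × GLI) :=
      {e | ((Fin.castAdd l e.1, Fin.castAdd l e.2.1, e.2.2) : Fin (k + l) × Fin (k + l) × GLI) ∈ T.E1}
      with hE'
    have himg : T.E1 = (fun e : Fin k × Fin k × GLI =>
        ((Fin.castAdd l e.1, Fin.castAdd l e.2.1, e.2.2) : Fin (k + l) × Fin (k + l) × GLI)) '' E' := by
      ext e
      constructor
      · intro he
        obtain ⟨i, h1⟩ := hgood2 e.1 he.1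
        obtain ⟨j, h2⟩ := hgood2 e.2.1 he.2.1
        refine ⟨(i, j, e.2.2), ?_, ?_⟩
        · show (Fin.castAdd l i, Fin.castAdd l j, e.2.2) ∈ T.E1
          rw [← h1, ← h2]; exact he
        · show (Fin.castAdd l i, Fin.castAdd l j, e.2.2) = e
          rw [← h1, ← h2]
      · rintro ⟨e', he', rfl⟩
        exact he'
    have hinj : Function.Injective (fun e : Fin k × Fin k × GLI =>
        ((Fin.castAdd l e.1, Fin.castAdd l e.2.1, e.2.2) : Fin (k + l) × Fin (k + l) × GLI)) := by
      intro e e' h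
      simp only [Prod.mk.injEq, Fin.castAdd_inj] at h
      exact Prod.ext h.1 (Prod.ext h.2.1 h.2.2)
    rw [himg, hinj.encard_image]
    refine Set.encard_le_encard_of_injOn (f := fun e : Fin k × Fin k × GLI =>
      ((f1 e.1, f1 e.2.1, e.2.2) : Fin N × Fin N × GLI)) ?_ ?_
    · rintro ⟨i, j, γ⟩ he
      obtain ⟨h1, h2, h3, h4, h5, h6⟩ := he
      simp only at h1 h2 h3 h4 h5 h6
      rw [Tp, Tp, hgd _ _ γ h4, pt1, pt1] at h5
      refine ⟨f1mono (show i < j from Fin.lt_def.2 (Fin.lt_def.1 h3)), h4, h5, ?_⟩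
      intro hth c hc1 hc2 hc
      obtain ⟨δ, hδ, hL1, hL2⟩ := hc
      apply h6
      have h3 : x c ∈ Th Γ (10 * D) := by
        apply act_mem_Th' hΓ hδ
        apply Th_of_near' hΓ (r := 10 * D) (d := D) (x := x (f1 i))
        · have : 10 * D + 2 * D = 12 * D := by ring
          rw [this]; exact hth
        · exact hL1.trans (by linarith)
      obtain ⟨i', hi'⟩ := f1surj c h3
      refine ⟨Fin.castAdd l i', δ, hδ, ?_, ?_⟩
      · rw [Tp, Tp, Tp, hgd _ _ δ hδ, hgd _ _ γ h4, pt1, pt1, pt1, hi']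
        exact hL1
      · rw [Tp, Tp, Tp, hgd2 _ _ γ h4 δ hδ, hgd _ _ γ h4, pt1, pt1, pt1, hi']
        exact hL2
    · rintro ⟨i, j, γ⟩ - ⟨i', j', γ'⟩ - h
      simp only [Prod.mk.injEq] at h
      obtain ⟨h1, h2, h3⟩ := h
      rw [f1mono.injective h1, f1mono.injective h2, h3]
  · -- bad pairs
    let near : Fin l → Finset (Fin l) := fun j =>
      Finset.univ.filter (fun j' => ∃ γ ∈ Γ, hd (f2 j) (act γ (f2 j')) ≤ D)
    let adj : Fin l → Finset (Fin k) := fun j =>
      Finset.univ.filter (fun i => x (f1 i) ∈ Sat Γ (bl0 (f2 j) D))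
    let S1 : Finset (Σ _ : Fin l, Fin l) := Finset.univ.sigma near
    let S2 : Finset (Σ _ : Fin l, Fin k) := Finset.univ.sigma adj
    let B1 : Finset (Fin (k + l) × Fin (k + l)) :=
      S1.image (fun q => (Fin.natAdd k q.1, Fin.natAdd k q.2))
    let B2 : Finset (Fin (k + l) × Fin (k + l)) :=
      S2.image (fun q => (Fin.natAdd k q.1, Fin.castAdd l q.2))
    let B3 : Finset (Fin (k + l) × Fin (k + l)) :=
      S2.image (fun q => (Fin.castAdd l q.2, Fin.natAdd k q.1))
    have hB : T.B ⊆ ↑(B1 ∪ B2 ∪ B3) := by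
      rintro ⟨i, j⟩ ⟨h1, γ, hγ, h2⟩
      simp only at h1 h2
      rw [Tp, Tp, hgd _ _ γ hγ] at h2
      rw [Tgood] at h1
      rw [Finset.mem_coe, Finset.mem_union, Finset.mem_union]
      by_cases hi : i ∈ good
      · obtain ⟨i', rfl⟩ := hgood2 i hi
        have hj : j ∉ good := by
          rcases h1 with h | h
          · exact absurd hi h
          · exact h
        obtain ⟨j', rfl⟩ := hbad j hj
        right
        refine Finset.mem_image.2 ⟨⟨j', i'⟩, ?_, rfl⟩
        refine Finset.mem_sigma.2 ⟨Finset.mem_univ _, Finset.mem_filter.2 ⟨Finset.mem_univ _, ?_⟩⟩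
        refine ⟨γ⁻¹, Γ.inv_mem hγ, ?_⟩
        show hd (f2 j') (act γ⁻¹ (x (f1 i'))) ≤ D
        rw [pt1, pt2] at h2
        rw [← hd_act (hΓ.inG γ hγ), act_act_inv (hΓ.inG γ hγ), hd_comm]
        exact h2
      · obtain ⟨i', rfl⟩ := hbad i hi
        by_cases hj : j ∈ good
        · obtain ⟨j', rfl⟩ := hgood2 j hj
          left; right
          refine Finset.mem_image.2 ⟨⟨i', j'⟩, ?_, rfl⟩
          refine Finset.mem_sigma.2 ⟨Finset.mem_univ _, Finset.mem_filter.2 ⟨Finset.mem_univ _, ?_⟩⟩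
          rw [pt1, pt2] at h2
          exact ⟨γ, hγ, h2⟩
        · obtain ⟨j', rfl⟩ := hbad j hj
          left; left
          refine Finset.mem_image.2 ⟨⟨i', j'⟩, ?_, rfl⟩
          refine Finset.mem_sigma.2 ⟨Finset.mem_univ _, Finset.mem_filter.2 ⟨Finset.mem_univ _, ?_⟩⟩
          rw [pt2, pt2] at h2
          exact ⟨γ, hγ, h2⟩
    have hcard : T.B.ncard ≤ S1.card + S2.card + S2.card := by
      calc T.B.ncard ≤ (↑(B1 ∪ B2 ∪ B3) : Set (Fin (k + l) × Fin (k + l))).ncard :=
            Set.ncard_le_ncard hB (Finset.finite_toSet _)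
        _ = (B1 ∪ B2 ∪ B3).card := Set.ncard_coe_finset _
        _ ≤ (B1 ∪ B2).card + B3.card := Finset.card_union_le _ _
        _ ≤ B1.card + B2.card + B3.card := by
            have := Finset.card_union_le B1 B2
            omega
        _ ≤ S1.card + S2.card + S2.card := by
            have h1 : B1.card ≤ S1.card := Finset.card_image_le
            have h2 : B2.card ≤ S2.card := Finset.card_image_le
            have h3 : B3.card ≤ S2.card := Finset.card_image_le
            omega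
    have hS1 : S1.card = ∑ j, (near j).card := Finset.card_sigma _ _
    have hS2 : S2.card = ∑ j, (adj j).card := Finset.card_sigma _ _
    have hnear : ∀ j, ((near j).card : ENNReal) ≤ ENNReal.ofReal m := by
      intro j
      have h1 : (((near j).image f2).card : ℝ) ≤ m := by
        apply hZ3 (f2 j)
        · intro z hz
          obtain ⟨j', -, rfl⟩ := Finset.mem_image.1 hz
          exact (Finset.mem_filter.1 (f2mem j')).1
        · intro z hz
          obtain ⟨j', hj', rfl⟩ := Finset.mem_image.1 hz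
          exact (Finset.mem_filter.1 hj').2
      rw [Finset.card_image_of_injective _ f2inj] at h1
      rw [← ENNReal.ofReal_natCast]
      exact ENNReal.ofReal_le_ofReal h1
    have hadj : ∀ j, ((adj j).card : ENNReal) ≤
        ∑ a, (if x a ∈ Sat Γ (bl0 (f2 j) D) then (1 : ENNReal) else 0) := by
      intro j
      rw [← Finset.sum_filter, Finset.sum_const, nsmul_eq_mul, mul_one]
      have : (adj j).card ≤ (Finset.univ.filter (fun a => x a ∈ Sat Γ (bl0 (f2 j) D))).card := by
        apply Finset.card_le_card_of_injOn f1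
        · intro i hi
          have hi' := (Finset.mem_filter.1 hi).2
          simpa using hi'
        · exact f1mono.injective.injOn
      exact_mod_cast this
    have hW : W Γ D Z m x = ∑ j : Fin l, (ENNReal.ofReal m +
        2 * ∑ a, (if x a ∈ Sat Γ (bl0 (f2 j) D) then (1 : ENNReal) else 0)) := by
      unfold W
      rw [← Finset.sum_filter]
      have h1 : Finset.filter (fun z => z ∉ Th Γ (12 * D) ∨ ∀ a, x a ∉ Sat Γ (bl0 z (D / 40))) Z
          = Finset.univ.image f2 := by
        ext z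
        constructor
        · intro hz
          obtain ⟨j, hj⟩ := f2surj z hz
          exact Finset.mem_image.2 ⟨j, Finset.mem_univ _, hj⟩
        · intro hz
          obtain ⟨j, -, rfl⟩ := Finset.mem_image.1 hz
          exact f2mem j
      rw [h1, Finset.sum_image (fun _ _ _ _ h => f2inj h)]
    rw [hW]
    calc (T.B.ncard : ENNReal) ≤ ((S1.card + S2.card + S2.card : ℕ) : ENNReal) := by
          exact_mod_cast hcard
      _ = ∑ j, (((near j).card : ENNReal) + 2 * ((adj j).card : ENNReal)) := by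
          rw [hS1, hS2]
          push_cast
          rw [Finset.sum_add_distrib, ← Finset.mul_sum]
          ring
      _ ≤ _ := by
          apply Finset.sum_le_sum
          intro j _
          gcongr
          · exact hnear j
          · exact hadj j

end Pool.Agent.helper21.WB.NN
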